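import Pool.Agent.H45.SE.TarT

set_option linter.unusedVariables false

open Ordinal Order Set
open scoped ZFSet

namespace SE

open SF

/-- the set of the conditions below `m` or incompatible with `m` -/
noncomputable def tdb_X (P m : V) : V :=
  P.sep fun q => Le q m ∨ ∀ q' ∈ P, ¬ (Le q' q ∧ Le q' m)

theorem tdb_tm (hBBa : T_BBa) : Tm ZFm (fun _ v => tdb_X (v 0) (v 1)) := by
  obtain ⟨-, -, -, -, -, -, -, -, -, -, -, hLe, -⟩ := hBBa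
  have hle : ∀ i j : ℕ, Dfb ZFm (fun _ v => Le (v i) (v j)) := fun i j =>
    Dfb.at2 (P := fun _ x y => Le x y) hLe (Tm.var i) (Tm.var j)
  refine (Tm.sep (R := fun _ v => Le (v 0) (v 2) ∨ ∀ q' ∈ v 1, ¬ (Le q' (v 0) ∧ Le q' (v 2)))
    (f := fun _ v => v 0) ((hle 0 2).or ?_) (Tm.var 0)).congr fun _ _ _ _ => rfl
  exact (Dfb.ball (R := fun _ v => ¬ (Le (v 0) (v 1) ∧ Le (v 0) (v 3))) ktr_zfm (Tm.var 1)
    ((hle 0 1).and (hle 0 3)).not).congr fun _ _ _ _ => Iff.rfl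

theorem t_tdb (hAF : T_AF) (hAG : T_AG) (hAH : T_AH) (hBA : T_BA) (hBBa : T_BBa) (hBBc : T_BBc)
    (hBC : T_BC) (hBD : T_BD) (hBJ : T_BJ) (hBK : T_BK) (hTBa : T_TBa) (hTBd : T_TBd)
    (hTBb : T_TBb) (hTCa : T_TCa) (hTDa : T_TDa) : T_TDb := by
  intro D hD π s s' p hI Y hNY hNam
  have hzfm : ZFm D.N := hD.zfc.toZFCm.toZFm
  obtain ⟨hNL, -, hHN, hPR, hG0⟩ := hBJ D hD
  have hNs : D.N s := hHN s hI.h
  have hNs' : D.N s' := hHN s' hI.h'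
  obtain ⟨-, -, -, -, -, -, hCld⟩ := hBA
  have hTrs : Tr s := (hCld D.L s hI.c).1
  have hTrs' : Tr s' := (hCld D.L s' hI.c').1
  obtain ⟨b1, b2, b3, b4, b5, b6, -, -⟩ := hTBb D.L π s s' p hI.c hI.c' hI.i
  have hpp : p ∈ Pos D.L s := hI.i.pp
  -- `p` is in the ground model
  have hNP : D.N (D.P s) := (hPR s hNs).1
  have hNP' : D.N (D.P s') := (hPR s' hNs').1
  have hNp : D.N p := hzfm.trans _ hNP p hpp
  have hNm : D.N (mv π p) := hzfm.trans _ hNP' _ b4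
  have hNtrn : D.N (trn D.L π p s s' Y) := by
    obtain ⟨-, -, -, -, -, -, -, -, htrn, -⟩ := hBBc
    refine htrn.1 D.N hzfm (cons D.L (cons π (cons p (cons s (cons s' fun _ => Y))))) ?_
    exact (In.cons (In.cons (In.cons (In.cons (In.cons (fun _ => hNY) hNs') hNs) hNp) hI.n) hNL)
  refine ⟨hNtrn, fun G' hG' => ?_⟩
  obtain ⟨d1, d2, d3⟩ := hTDa.2 D.L π s s' p hI.c hI.c' hI.i Y hNam
  obtain ⟨-, ⟨e1, e2, e3, e4, -⟩, e6⟩ := (hG0 s' hNs' hI.c').2 G' hG'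
  obtain ⟨k1, -⟩ := hBK D hD s' G' hNs' hI.c' hG'
  obtain ⟨k2, k3, k4, -⟩ := k1 s' _ hNs' (fun _ h => h) hTrs' hNtrn d1
  obtain ⟨g1, g2, -, g4, -⟩ := hAG
  have hsq : ∀ x, Rl x → ∀ n : ℕ, Sq n (rs x (nS n)) ∧ rs x (nS n) ∈ sq ∧ rs x (nS n) ⊆ x := by
    intro x hx n
    obtain ⟨-, -, h1, -⟩ := g1 x hx
    obtain ⟨-, h2, h3, -⟩ := h1 n
    exact ⟨h2, (hAF.1 _).2 ⟨n, h2⟩, h3⟩
  constructor
  · intro hm
    obtain ⟨c1, -⟩ := hTCa D hD π s s' p hI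
    obtain ⟨-, c2⟩ := hTCa D hD (inv π) s' s (mv π p) c1
    obtain ⟨c3, c4, c5, -, -⟩ := c2 G' hG' hm
    refine ⟨c3, ?_⟩
    set G := gp D.L (inv π) (mv π p) s G' with hG
    obtain ⟨-, -, -, -, t5⟩ := hTBd π s s' hI.i.fn
    obtain ⟨-, -, -, -, -, -, t6, -, -⟩ := t5 b1 hI.i.onto
    have hFF : ∀ q, q ∈ Pos D.L s → FF q ∧ dm q ⊆ s := by
      intro q hq
      obtain ⟨-, -, -, h1, -⟩ := hBC
      obtain ⟨h2, h3, -⟩ := (h1 D.L s q).1 hq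
      exact ⟨h2, h3⟩
    have hinv : ∀ q, q ∈ Pos D.L s → mv (inv π) (mv π q) = q := by
      intro q hq
      obtain ⟨h1, h2⟩ := hFF q hq
      exact (t6 q h1 h2).2
    rw [hinv p hpp] at c4
    obtain ⟨-, ⟨f1, f2, f3, f4, -⟩, -⟩ := (hG0 s hNs hI.c).2 G c3
    obtain ⟨l1, -⟩ := hBK D hD s G hNs hI.c c3
    obtain ⟨l2, -, -, -, l5, -⟩ := l1 s Y hNs (fun _ h => h) hTrs hNY hNam
    refine (g4 _ _ k2 l2 fun n => ⟨n, le_rfl, ?_⟩)
    obtain ⟨q, hq, hqY⟩ := l5 n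
    obtain ⟨-, r1, r2, r3⟩ := f4 p c4 q hq
    set r := jn q p with hr
    have hrP : r ∈ Pos D.L s := f1 r1
    obtain ⟨s1, s2, -⟩ := hsq _ l2 n
    have hrY : ZFSet.pair r (rs (ev G Y) (nS n)) ∈ Y := hNam.mono q _ hqY r hrP r2
    have hmr := (d2 r hrP r3 _).1 hrY
    have hmr' : mv π r ∈ G' := by
      obtain ⟨u1, u2⟩ := b5 r hrP r3
      have := (c5 (mv π r) u1 u2).1
      rw [hinv r hrP] at this
      exact this r1
    have hsub : rs (ev G Y) (nS n) ⊆ ev G' (trn D.L π p s s' Y) := by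
      exact (k4 _ s2).2 ⟨_, hmr', hmr⟩
    exact ((g2 _ n _ k2 s1).1 hsub).symm
  · intro hm
    obtain ⟨-, -, -, h4, -⟩ := hAH
    have hkc : Rl (kc 0) := (h4 0).1
    -- some condition in `G'` is incompatible with `mv π p`
    have hX : D.N (tdb_X (D.P s') (mv π p)) := by
      refine (tdb_tm hBBa).1 D.N hzfm (cons (D.P s') fun _ => mv π p) ?_
      exact In.cons (fun _ => hNm) hNP'
    obtain ⟨r, hrG, hrX, -⟩ := e6 (tdb_X (D.P s') (mv π p)) ∅ hX e2 (by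
      intro q hq _
      have hle : ∀ x ∈ D.P s', Le x x := by
        intro x hx
        obtain ⟨-, -, -, h1, -⟩ := hBD
        exact (h1 D.L s' x hx).1
      by_cases hc : ∃ q' ∈ D.P s', Le q' q ∧ Le q' (mv π p)
      · obtain ⟨q', h1, h2, h3⟩ := hc
        refine ⟨q', ?_, h1, h2⟩
        unfold tdb_X
        rw [ZFSet.mem_sep]
        exact ⟨h1, Or.inl h3⟩
      · refine ⟨q, ?_, hq, hle q hq⟩
        unfold tdb_X
        rw [ZFSet.mem_sep]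
        exact ⟨hq, Or.inr fun q' h1 h2 => hc ⟨q', h1, h2⟩⟩)
    unfold tdb_X at hrX
    rw [ZFSet.mem_sep] at hrX
    obtain ⟨hrP, hrX⟩ := hrX
    rcases hrX with hrX | hrX
    · exact absurd (e3 r hrG (mv π p) b4 hrX) hm
    · refine (g4 _ _ k2 hkc fun n => ⟨n, le_rfl, ?_⟩)
      obtain ⟨s1, s2, s3⟩ := hsq _ hkc n
      have h1 := (d3 r hrP hrX _ s2).2 s3
      have hsub : rs (kc 0) (nS n) ⊆ ev G' (trn D.L π p s s' Y) := (k4 _ s2).2 ⟨r, hrG, h1⟩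
      exact ((g2 _ n _ k2 s1).1 hsub).symm

end SE
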