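import Pool.Agent.H9.SE.TarK

set_option linter.unusedVariables false

open Ordinal Order Set
open scoped ZFSet

namespace SE

open SF CAA

theorem ke_tm_rs : Tm ZFm (fun _ v => rs (v 0) (v 1)) :=
  (Tm.sep (R := fun _ v => fst (v 0) ∈ v 2) (f := fun _ v => v 0)
    (Dfb.mem (Tm.fst (Tm.var 0)) (Tm.var 2)) (Tm.var 0)).congr fun _ _ _ _ => rfl

theorem ke_tm_prs : Tm ZFm (fun _ v => prs (v 0) (v 1)) :=
  (Tm.resS (f := fun _ v => dm (v 1))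
    (g := fun _ v => ZFSet.pair (app (v 1) (v 0)) (app (v 2) (v 0)))
    (Tm.dm (Tm.var 1)) (Tm.pair (Tm.app (Tm.var 1) (Tm.var 0)) (Tm.app (Tm.var 2) (Tm.var 0)))).congr
    fun _ _ _ _ => rfl

theorem ke_tm_prl : Tm ZFm (fun _ v => prl (v 0) (v 1)) :=
  (Tm.resS (f := fun _ _ => om)
    (g := fun _ v => ZFSet.pair (app (v 1) (v 0)) (app (v 2) (v 0)))
    Tm.om (Tm.pair (Tm.app (Tm.var 1) (Tm.var 0)) (Tm.app (Tm.var 2) (Tm.var 0)))).congr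
    fun _ _ _ _ => rfl

theorem ke_tm_Dx (hAF : T_AF) : Tm ZFm (fun _ v => Dx (v 0) (v 1)) := by
  obtain ⟨-, -, hsq, -⟩ := hAF
  refine (Tm.sep (R := fun _ v => (∃ k ∈ v 2, app (v 1) k = v 0) ∧ dm (v 0) ⊆ v 2)
    (f := fun _ _ => sq) (Dfb.and ?_ (Dfb.subset (Tm.dm (Tm.var 0)) (Tm.var 2))) hsq).congr
    fun _ _ _ _ => rfl
  exact (Dfb.bex (R := fun _ v => app (v 2) (v 0) = v 1) ktr_zfm (Tm.var 2)
    (Dfb.eq (Tm.app (Tm.var 2) (Tm.var 0)) (Tm.var 1))).congr fun _ _ _ _ => Iff.rfl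

theorem ke_ShN_iff (e a z t : V) : ShN e a z t ↔ Svl (snd t) ∧
    dm (snd t) = Dx e (dm (fst t)) ∩ TO a (prs z (fst t)) ∧
    ∀ b ∈ dm (snd t), ∀ c ∈ dm (snd t), ZFSet.pair c b ∈ EO →
      app (snd t) c ∈ app (snd t) b := by
  constructor
  · intro h
    refine ⟨h.svl, ?_, h.lt⟩
    ext b
    rw [ZFSet.mem_inter]
    exact h.dm b
  · rintro ⟨h1, h2, h3⟩
    refine ⟨h1, fun b => ?_, h3⟩
    rw [h2, ZFSet.mem_inter]

theorem ke_dfb_ShN (hAF : T_AF) (hKC : T_KC) :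
    Dfb ZFm (fun _ v => ShN (v 1) (v 2) (v 3) (v 0)) := by
  obtain ⟨hTO, hEO, -⟩ := hKC
  have h1 : Dfb ZFm (fun _ v => Svl (snd (v 0))) := Dfb.svl (Tm.snd (Tm.var 0))
  have h2 : Dfb ZFm (fun _ v => dm (snd (v 0)) =
      Dx (v 1) (dm (fst (v 0))) ∩ TO (v 2) (prs (v 3) (fst (v 0)))) := by
    refine Dfb.eq (Tm.dm (Tm.snd (Tm.var 0))) (Tm.inter ?_ ?_)
    · exact Tm.at2 (F := fun _ x y => Dx x y) (ke_tm_Dx hAF) (Tm.var 1)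
        (Tm.dm (Tm.fst (Tm.var 0)))
    · refine Tm.at2 (F := fun _ x y => TO x y) hTO (Tm.var 2) ?_
      exact Tm.at2 (F := fun _ x y => prs x y) ke_tm_prs (Tm.var 3) (Tm.fst (Tm.var 0))
  have h3 : Dfb ZFm (fun _ v => ∀ b ∈ dm (snd (v 0)), ∀ c ∈ dm (snd (v 0)),
      ZFSet.pair c b ∈ EO → app (snd (v 0)) c ∈ app (snd (v 0)) b) := by
    refine (Dfb.ball (R := fun _ v => ∀ c ∈ dm (snd (v 1)),
      ZFSet.pair c (v 0) ∈ EO → app (snd (v 1)) c ∈ app (snd (v 1)) (v 0)) ktr_zfm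
      (Tm.dm (Tm.snd (Tm.var 0))) ?_).congr fun _ _ _ _ => Iff.rfl
    refine (Dfb.ball (R := fun _ v => ZFSet.pair (v 0) (v 1) ∈ EO →
      app (snd (v 2)) (v 0) ∈ app (snd (v 2)) (v 1)) ktr_zfm
      (Tm.dm (Tm.snd (Tm.var 1))) ?_).congr fun _ _ _ _ => Iff.rfl
    exact Dfb.imp (Dfb.mem (Tm.pair (Tm.var 0) (Tm.var 1)) hEO)
      (Dfb.mem (Tm.app (Tm.snd (Tm.var 2)) (Tm.var 0)) (Tm.app (Tm.snd (Tm.var 2)) (Tm.var 1)))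
  exact (h1.and (h2.and h3)).congr fun _ _ v _ => (ke_ShN_iff _ _ _ _).symm

theorem t_ke0 (hAB : T_AB) (hAF : T_AF) (hKC : T_KC) : T_KE0 := by
  have hAF' := hAF
  obtain ⟨-, -, hsq, -⟩ := hAF'
  obtain ⟨-, hFs, -⟩ := hAB
  constructor
  · refine (Tm.sep (R := fun _ v => ShN (v 1) (v 2) (v 3) (v 0))
      (f := fun _ v => ZFSet.prod sq (Fs (ZFSet.prod sq (v 3)))) (ke_dfb_ShN hAF hKC) ?_).congr
      fun _ _ _ _ => rfl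
    refine Tm.prod hsq ?_
    exact Tm.at1 (F := fun _ x => Fs x) hFs (Tm.prod hsq (Tm.var 3))
  · refine (Tm.sep (R := fun _ v => fst (snd (v 0)) ⊆ fst (fst (v 0)) ∧
      fst (snd (v 0)) ≠ fst (fst (v 0)) ∧ snd (snd (v 0)) ⊆ snd (fst (v 0)))
      (f := fun _ v => ZFSet.prod (v 0) (v 0)) ?_ (Tm.prod (Tm.var 0) (Tm.var 0))).congr
      fun _ _ _ _ => rfl
    refine Dfb.and ?_ (Dfb.and ?_ ?_)
    · exact Dfb.subset (Tm.fst (Tm.snd (Tm.var 0))) (Tm.fst (Tm.fst (Tm.var 0)))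
    · exact (Dfb.eq (Tm.fst (Tm.snd (Tm.var 0))) (Tm.fst (Tm.fst (Tm.var 0)))).not
    · exact Dfb.subset (Tm.snd (Tm.snd (Tm.var 0))) (Tm.snd (Tm.fst (Tm.var 0)))

end SE
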