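import Pool.Agent.H84.SE.KE0

set_option linter.unusedVariables false

open Ordinal Order Set
open scoped ZFSet

namespace SE

open SF CAA

theorem ke_mem_nS {n : ℕ} {x : V} : x ∈ nS n ↔ ∃ k < n, x = nS k := by
  induction n with
  | zero =>
    rw [nS_zero]
    constructor
    · intro h
      exact absurd h (ZFSet.notMem_empty _)
    · rintro ⟨k, hk, -⟩
      omega
  | succ n ih =>
    rw [nS_succ, ZFSet.mem_insert_iff, ih]
    constructor
    · rintro (rfl | ⟨k, hk, rfl⟩)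
      · exact ⟨n, by omega, rfl⟩
      · exact ⟨k, by omega, rfl⟩
    · rintro ⟨k, hk, rfl⟩
      by_cases h : k = n
      · left; rw [h]
      · right; exact ⟨k, by omega, rfl⟩

theorem ke_nS_sub {m n : ℕ} : nS m ⊆ nS n ↔ m ≤ n := by
  constructor
  · intro h
    by_contra hcon
    have h1 : nS n ∈ nS m := nS_mem_nS.2 (by omega)
    have h2 := nS_mem_nS.1 (h h1)
    omega
  · intro h x hx
    obtain ⟨k, hk, rfl⟩ := ke_mem_nS.1 hx
    exact nS_mem_nS.2 (by omega)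

/-- finite sequences -/
theorem ke_sq (hAF : T_AF) {b : V} (hb : b ∈ sq) : ∃ k : ℕ, Sq k b ∧ dm b = nS k := by
  obtain ⟨h1, -, -, -, h5, -⟩ := hAF
  obtain ⟨k, hk⟩ := (h1 b).1 hb
  exact ⟨k, hk, (h5 k b hk).2.2.1⟩

theorem ke_rs (hAF : T_AF) (hAG : T_AG) {y : V} (hy : Rl y) (n : ℕ) :
    Sq n (rs y (nS n)) ∧ rs y (nS n) ∈ sq ∧ dm (rs y (nS n)) = nS n ∧
      ∀ l < n, app (rs y (nS n)) (nS l) = app y (nS l) := by
  obtain ⟨h1, -, -, -, h5, -⟩ := hAF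
  obtain ⟨g1, -⟩ := hAG
  obtain ⟨-, -, g3, -⟩ := g1 y hy
  obtain ⟨-, g4, -, g5⟩ := g3 n
  exact ⟨g4, (h1 _).2 ⟨n, g4⟩, (h5 n _ g4).2.2.1, g5⟩

theorem ke_prs (hAF : T_AF) (hAG : T_AG) {y : V} (hy : Rl y) (n : ℕ) {b : V} (z : V)
    (hb : dm b ⊆ nS n) : prs (prs z (rs y (nS n))) b = prs (prl z y) b := by
  obtain ⟨-, -, h3, h4⟩ := ke_rs hAF hAG hy n
  refine resS_congr fun k hk => ?_
  have hk1 : k ∈ nS n := hb hk
  obtain ⟨l, hl, rfl⟩ := ke_mem_nS.1 hk1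
  have e1 : app (prs z (rs y (nS n))) (nS l) = ZFSet.pair (app z (nS l)) (app y (nS l)) := by
    have e2 : app (prs z (rs y (nS n))) (nS l) =
        ZFSet.pair (app z (nS l)) (app (rs y (nS n)) (nS l)) :=
      app_resS (by rw [h3]; exact hk1)
    rw [e2, h4 l hl]
  have e3 : app (prl z y) (nS l) = ZFSet.pair (app z (nS l)) (app y (nS l)) :=
    app_resS (nS_mem_om l)
  rw [e1, e3]

theorem ke_mem_TO {a x b : V} : b ∈ TO a x ↔ b ∈ sq ∧ ∀ m ∈ insert (dm b) (dm b),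
    rs (prs x b) m ∉ rg a := by
  unfold TO
  rw [ZFSet.mem_sep]

theorem ke_TO (hAF : T_AF) (hAG : T_AG) {y : V} (hy : Rl y) (n : ℕ) {b : V} (a z : V)
    (hb : dm b ⊆ nS n) : b ∈ TO a (prs z (rs y (nS n))) ↔ b ∈ TO a (prl z y) := by
  rw [ke_mem_TO, ke_mem_TO, ke_prs hAF hAG hy n z hb]

theorem ke_mem_Dx {e n b : V} : b ∈ Dx e n ↔ b ∈ sq ∧ (∃ k ∈ n, app e k = b) ∧ dm b ⊆ n := by
  unfold Dx
  rw [ZFSet.mem_sep]

theorem ke_Dx_fin (e : V) (n : ℕ) : (Dx e (nS n) : Set V).Finite := by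
  refine Set.Finite.subset ((Set.finite_Iio n).image fun k => app e (nS k)) ?_
  intro b hb
  obtain ⟨-, ⟨k, hk, rfl⟩, -⟩ := ke_mem_Dx.1 hb
  obtain ⟨l, hl, rfl⟩ := ke_mem_nS.1 hk
  exact ⟨l, hl, rfl⟩

/-- the finite part of the rank function at stage `n` -/
noncomputable def ke_h (e a z y f n : V) : V :=
  resS (Dx e n ∩ TO a (prl z y)) fun b => app f b

/-- the branch -/
noncomputable def ke_s (e a z y f : V) : V :=
  resS om fun n => ZFSet.pair (rs y n) (ke_h e a z y f n)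

theorem ke_tm_s (hAF : T_AF) (hKC : T_KC) :
    Tm ZFm (fun _ v => ke_s (v 0) (v 1) (v 2) (v 3) (v 4)) := by
  obtain ⟨hTO, hEO, -⟩ := hKC
  have h1 : Tm ZFm (fun _ v => ke_h (v 1) (v 2) (v 3) (v 4) (v 5) (v 0)) := by
    refine (Tm.resS (f := fun _ v => Dx (v 1) (v 0) ∩ TO (v 2) (prl (v 3) (v 4)))
      (g := fun _ v => app (v 6) (v 0)) ?_ (Tm.app (Tm.var 6) (Tm.var 0))).congr fun _ _ _ _ => rfl
    refine Tm.inter ?_ ?_
    · exact Tm.at2 (F := fun _ x y => Dx x y) (ke_tm_Dx hAF) (Tm.var 1) (Tm.var 0)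
    · refine Tm.at2 (F := fun _ x y => TO x y) hTO (Tm.var 2) ?_
      exact Tm.at2 (F := fun _ x y => prl x y) ke_tm_prl (Tm.var 3) (Tm.var 4)
  exact (Tm.resS (f := fun _ _ => om)
    (g := fun _ v => ZFSet.pair (rs (v 4) (v 0)) (ke_h (v 1) (v 2) (v 3) (v 4) (v 5) (v 0)))
    Tm.om (Tm.pair (Tm.at2 (F := fun _ x y => rs x y) ke_tm_rs (Tm.var 4) (Tm.var 0)) h1)).congr
    fun _ _ _ _ => rfl

theorem ke_app_s (e a z y f : V) (n : ℕ) :
    app (ke_s e a z y f) (nS n) = ZFSet.pair (rs y (nS n)) (ke_h e a z y f (nS n)) :=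
  app_resS (nS_mem_om n)

theorem t_ke1 (hAB : T_AB) (hAF : T_AF) (hAG : T_AG) (hKC : T_KC) : T_KE1 := by
  intro W hW e a z α y f he ha hz hα hy hf hone hRa hRz hRy hrk hval hno
  obtain ⟨hFs, -⟩ := hAB
  apply hno
  have hsW : W (ke_s e a z y f) := by
    refine (ke_tm_s hAF hKC).1 W hW (cons e (cons a (cons z (cons y fun _ => f)))) ?_
    exact ((In.cons (In.cons (In.cons (fun _ => hf) hy) hz) ha).cons he)
  -- facts on `ke_h`
  have hdm : ∀ n : V, dm (ke_h e a z y f n) = Dx e n ∩ TO a (prl z y) := fun n => dm_resS _ _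
  have happ : ∀ (n b : V), b ∈ Dx e n ∩ TO a (prl z y) → app (ke_h e a z y f n) b = app f b :=
    fun n b hb => app_resS hb
  have hT : ∀ n : ℕ, app (ke_s e a z y f) (nS n) ∈ TS e a z α := by
    intro n
    rw [ke_app_s]
    obtain ⟨g1, g2, g3, g4⟩ := ke_rs hAF hAG hRy n
    unfold TS
    rw [ZFSet.mem_sep, ZFSet.pair_mem_prod]
    refine ⟨⟨g2, ?_⟩, ?_⟩
    · rw [hFs]
      constructor
      · intro w hw
        unfold ke_h at hw
        rw [mem_resS] at hw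
        obtain ⟨b, hb, rfl⟩ := hw
        rw [ZFSet.mem_inter] at hb
        rw [ZFSet.pair_mem_prod]
        exact ⟨(ke_mem_Dx.1 hb.1).1, hval b hb.2⟩
      · refine Set.Finite.subset ((ke_Dx_fin e n).image fun b => ZFSet.pair b (app f b)) ?_
        intro w hw
        have hw' : w ∈ ke_h e a z y f (nS n) := hw
        unfold ke_h at hw'
        rw [mem_resS] at hw'
        obtain ⟨b, hb, rfl⟩ := hw'
        rw [ZFSet.mem_inter] at hb
        exact ⟨b, hb.1, rfl⟩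
    · refine ⟨?_, ?_, ?_⟩
      · rw [snd_pair]
        exact svl_resS _ _
      · intro b
        rw [snd_pair, fst_pair, hdm, ZFSet.mem_inter, g3]
        constructor
        · rintro ⟨h1, h2⟩
          exact ⟨h1, (ke_TO hAF hAG hRy n a z (ke_mem_Dx.1 h1).2.2).2 h2⟩
        · rintro ⟨h1, h2⟩
          exact ⟨h1, (ke_TO hAF hAG hRy n a z (ke_mem_Dx.1 h1).2.2).1 h2⟩
      · intro b hb c hc hbc
        rw [snd_pair] at hb hc ⊢
        rw [hdm] at hb hc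
        rw [happ _ _ hb, happ _ _ hc]
        exact hrk.lt c (ZFSet.mem_inter.1 hc).2 b (ZFSet.mem_inter.1 hb).2 hbc
  refine ⟨ke_s e a z y f, hsW, ?_, ?_⟩
  · refine isFunc_resS _ _ _ fun n hn => ?_
    obtain ⟨k, rfl⟩ := mem_om.1 hn
    have := hT k
    rw [ke_app_s] at this
    exact this
  · intro n
    unfold ES
    rw [ZFSet.mem_sep, ZFSet.pair_mem_prod]
    refine ⟨⟨hT _, hT _⟩, ?_⟩
    rw [fst_pair, snd_pair, ke_app_s, ke_app_s]
    simp only [fst_pair, snd_pair]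
    obtain ⟨g1, g2, g3, g4⟩ := ke_rs hAF hAG hRy n
    obtain ⟨g1', g2', g3', g4'⟩ := ke_rs hAF hAG hRy (n + 1)
    refine ⟨?_, ?_, ?_⟩
    · obtain ⟨-, -, -, -, -, -, f7, -⟩ := hAF
      rw [f7 n _ (n + 1) _ g1 g1']
      refine ⟨by omega, fun l hl => ?_⟩
      rw [g4 l hl, g4' l (by omega)]
    · intro h
      have h1 : nS n = nS (n + 1) := by rw [← g3, ← g3', h]
      have := nS_inj.1 h1
      omega
    · intro w hw
      unfold ke_h at hw ⊢
      rw [mem_resS] at hw ⊢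
      obtain ⟨b, hb, rfl⟩ := hw
      refine ⟨b, ?_, rfl⟩
      rw [ZFSet.mem_inter] at hb ⊢
      refine ⟨?_, hb.2⟩
      obtain ⟨h1, ⟨k, hk, h2⟩, h3⟩ := ke_mem_Dx.1 hb.1
      have hsub : nS n ⊆ nS (n + 1) := ke_nS_sub.2 (by omega)
      exact ke_mem_Dx.2 ⟨h1, ⟨k, hsub hk, h2⟩, fun w hw => hsub (h3 hw)⟩

end SE
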