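import Pool.Agent.H84.SE.KE1

set_option linter.unusedVariables false

open Ordinal Order Set
open scoped ZFSet

namespace SE

open SF CAA

theorem ke_mem_sU {F : V → V} {x : V} :
    x ∈ (⋃₀ (imS om F) : ZFSet) ↔ ∃ n : ℕ, x ∈ F (nS n) := by
  rw [ZFSet.mem_sUnion]
  constructor
  · rintro ⟨w, hw, hx⟩
    rw [mem_imS] at hw
    obtain ⟨n, hn, rfl⟩ := hw
    obtain ⟨k, rfl⟩ := mem_om.1 hn
    exact ⟨k, hx⟩
  · rintro ⟨n, hx⟩
    exact ⟨_, mem_imS.2 ⟨nS n, nS_mem_om n, rfl⟩, hx⟩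

theorem ke_tm_y : Tm ZFm (fun _ v => (⋃₀ (imS om fun n => fst (app (v 0) n)) : ZFSet)) :=
  (Tm.iUn (f := fun _ _ => om) (g := fun _ v => fst (app (v 1) (v 0))) Tm.om
    (Tm.fst (Tm.app (Tm.var 1) (Tm.var 0)))).congr fun _ _ _ _ => rfl

theorem ke_tm_f : Tm ZFm (fun _ v => (⋃₀ (imS om fun n => snd (app (v 0) n)) : ZFSet)) :=
  (Tm.iUn (f := fun _ _ => om) (g := fun _ v => snd (app (v 1) (v 0))) Tm.om
    (Tm.snd (Tm.app (Tm.var 1) (Tm.var 0)))).congr fun _ _ _ _ => rfl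

theorem t_ke2 (hAB : T_AB) (hAF : T_AF) (hAG : T_AG) (hKC : T_KC) : T_KE2 := by
  intro W hW e a z α he ha hz hα hone hαo hRa hRz hno
  obtain ⟨hFs, -⟩ := hAB
  unfold NoDes at hno
  rw [not_not] at hno
  obtain ⟨s, hs, hsf, hsd⟩ := hno
  set T := TS e a z α with hT
  have hsT : ∀ n : ℕ, app s (nS n) ∈ T := fun n => app_mem hsf (nS_mem_om n)
  have hTm : ∀ t, t ∈ T → fst t ∈ sq ∧ snd t ⊆ ZFSet.prod sq α ∧ ShN e a z t := by
    intro t ht
    rw [hT] at ht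
    unfold TS at ht
    rw [ZFSet.mem_sep, ZFSet.mem_prod] at ht
    obtain ⟨⟨u, hu, h, hh, rfl⟩, hsh⟩ := ht
    rw [hFs] at hh
    exact ⟨by rw [fst_pair]; exact hu, by rw [snd_pair]; exact hh.1, hsh⟩
  let u : ℕ → V := fun n => fst (app s (nS n))
  let h : ℕ → V := fun n => snd (app s (nS n))
  have hstep : ∀ n, u n ⊆ u (n + 1) ∧ u n ≠ u (n + 1) ∧ h n ⊆ h (n + 1) := by
    intro n
    have h1 := hsd n
    unfold ES at h1
    rw [ZFSet.mem_sep, fst_pair, snd_pair] at h1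
    exact h1.2
  have husq : ∀ n, u n ∈ sq := fun n => (hTm _ (hsT n)).1
  have hhsub : ∀ n, h n ⊆ ZFSet.prod sq α := fun n => (hTm _ (hsT n)).2.1
  have hsh : ∀ n, ShN e a z (app s (nS n)) := fun n => (hTm _ (hsT n)).2.2
  have humono : ∀ m n, m ≤ n → u m ⊆ u n := by
    intro m n hmn
    induction n, hmn using Nat.le_induction with
    | base => exact fun _ hx => hx
    | succ n _ ih => exact fun _ hx => (hstep n).1 (ih hx)
  have hhmono : ∀ m n, m ≤ n → h m ⊆ h n := by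
    intro m n hmn
    induction n, hmn using Nat.le_induction with
    | base => exact fun _ hx => hx
    | succ n _ ih => exact fun _ hx => (hstep n).2.2 (ih hx)
  choose l hl hdl using fun n => ke_sq hAF (husq n)
  have hlstep : ∀ n, l n < l (n + 1) := by
    intro n
    obtain ⟨-, -, -, -, f5, -, f7, f8, -⟩ := hAF
    have h1 := (f7 _ _ _ _ (hl n) (hl (n + 1))).1 (hstep n).1
    by_contra hcon
    have h2 : l n = l (n + 1) := by omega
    have h3 := f8 _ _ _ _ (hl n) (hl (n + 1)) (hstep n).1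
    rw [h2, (f5 _ _ (hl (n + 1))).2.2.2.2.1] at h3
    exact (hstep n).2.1 h3
  have hlge : ∀ n, n ≤ l n := by
    intro n
    induction n with
    | zero => omega
    | succ n ih => have := hlstep n; omega
  -- the real
  set y : V := (⋃₀ (imS om fun n => fst (app s n)) : ZFSet) with hy
  have hWy : W y := ke_tm_y.1 W hW (fun _ => s) fun _ => hs
  set f : V := (⋃₀ (imS om fun n => snd (app s n)) : ZFSet) with hfdefdef
  have hWf : W f := ke_tm_f.1 W hW (fun _ => s) fun _ => hs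
  have hAG' := hAG
  obtain ⟨-, g2, -, -, g5, -⟩ := hAG'
  have hchain := g5 (imS om fun n => fst (app s n)) (by
      intro x hx
      rw [mem_imS] at hx
      obtain ⟨n, hn, rfl⟩ := hx
      obtain ⟨k, rfl⟩ := mem_om.1 hn
      exact husq k) (by
      intro b hb c hc
      rw [mem_imS] at hb hc
      obtain ⟨n, hn, rfl⟩ := hb
      obtain ⟨k, rfl⟩ := mem_om.1 hn
      obtain ⟨m, hm, rfl⟩ := hc
      obtain ⟨j, rfl⟩ := mem_om.1 hm
      rcases le_total k j with hkj | hkj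
      · exact Or.inl (humono k j hkj)
      · exact Or.inr (humono j k hkj)) (by
      intro n
      exact ⟨l n, u n, hlge n, hl n, mem_imS.2 ⟨nS n, nS_mem_om n, rfl⟩⟩)
  obtain ⟨hRy, hsuby⟩ := hchain
  rw [← hy] at hRy hsuby
  have hur : ∀ n, u n = rs y (nS (l n)) := fun n =>
    (g2 y (l n) (u n) hRy (hl n)).1 (hsuby _ (mem_imS.2 ⟨nS n, nS_mem_om n, rfl⟩))
  -- the rank function
  have hmf : ∀ w, w ∈ f ↔ ∃ n : ℕ, w ∈ h n := fun w => ke_mem_sU
  have hsvlh : ∀ n, Svl (h n) := fun n => (hsh n).svl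
  have hsvl : Svl f := by
    intro x p q hp hq
    rw [hmf] at hp hq
    obtain ⟨m, hm⟩ := hp
    obtain ⟨n, hn⟩ := hq
    exact hsvlh (max m n) x p q (hhmono m _ (le_max_left _ _) hm)
      (hhmono n _ (le_max_right _ _) hn)
  have hdmh : ∀ n b, b ∈ dm (h n) ↔ b ∈ Dx e (nS (l n)) ∧ b ∈ TO a (prl z y) := by
    intro n b
    have h1 := (hsh n).dm b
    have h2 : dm (fst (app s (nS n))) = nS (l n) := hdl n
    have h3 : fst (app s (nS n)) = rs y (nS (l n)) := hur n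
    rw [h2, h3] at h1
    rw [show dm (h n) = dm (snd (app s (nS n))) from rfl, h1]
    constructor
    · rintro ⟨k1, k2⟩
      exact ⟨k1, (ke_TO hAF hAG hRy (l n) a z (ke_mem_Dx.1 k1).2.2).1 k2⟩
    · rintro ⟨k1, k2⟩
      exact ⟨k1, (ke_TO hAF hAG hRy (l n) a z (ke_mem_Dx.1 k1).2.2).2 k2⟩
  -- every node of the tree enters at some stage
  have hent : ∀ b ∈ TO a (prl z y), ∃ n0 : ℕ, ∀ n, n0 ≤ n → b ∈ dm (h n) := by
    intro b hb
    have hbsq := (ke_mem_TO.1 hb).1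
    obtain ⟨k, hk, hdk⟩ := ke_sq hAF hbsq
    have hbhf : b ∈ hf := by
      obtain ⟨-, -, -, -, f5, -⟩ := hAF
      exact (f5 k b hk).1
    obtain ⟨j, hj, hjb⟩ := hone.2 b hbhf
    obtain ⟨j', rfl⟩ := mem_om.1 hj
    have hej : app e (nS j') = b := app_eq (svl_of_isFunc hone.1) hjb
    refine ⟨max (j' + 1) k, fun n hn => (hdmh n b).2 ⟨ke_mem_Dx.2 ⟨hbsq, ⟨nS j', ?_, hej⟩, ?_⟩, hb⟩⟩
    · rw [nS_mem_nS]
      have := hlge n
      omega
    · rw [hdk, ke_nS_sub]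
      have := hlge n
      omega
  have happ : ∀ n b, b ∈ dm (h n) → app f b = app (h n) b ∧ ZFSet.pair b (app f b) ∈ h n := by
    intro n b hb
    rw [mem_dm] at hb
    obtain ⟨c, hc⟩ := hb
    have h1 : app (h n) b = c := app_eq (hsvlh n) hc
    have h2 : app f b = c := app_eq hsvl ((hmf _).2 ⟨n, hc⟩)
    exact ⟨by rw [h1, h2], by rw [h2]; exact hc⟩
  refine ⟨y, f, hWy, hRy, hWf, hsvl, ?_, ?_, ?_⟩
  · ext b
    constructor
    · intro hb
      rw [mem_dm] at hb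
      obtain ⟨c, hc⟩ := hb
      obtain ⟨n, hn⟩ := (hmf _).1 hc
      exact ((hdmh n b).1 (mem_dm.2 ⟨c, hn⟩)).2
    · intro hb
      obtain ⟨n0, hn0⟩ := hent b hb
      obtain ⟨c, hc⟩ := mem_dm.1 (hn0 n0 le_rfl)
      exact mem_dm.2 ⟨c, (hmf _).2 ⟨n0, hc⟩⟩
  · intro b hb
    obtain ⟨n0, hn0⟩ := hent b hb
    have h1 := hhsub n0 (happ n0 b (hn0 n0 le_rfl)).2
    rw [ZFSet.pair_mem_prod] at h1
    obtain ⟨β, rfl⟩ := hαo
    obtain ⟨γ, -, hγ⟩ := Ordinal.mem_toZFSet_iff.1 h1.2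
    exact ⟨γ, hγ.symm⟩
  · intro b hb c hc hbc
    obtain ⟨n0, hn0⟩ := hent b hb
    obtain ⟨n1, hn1⟩ := hent c hc
    have h1 := hn0 (max n0 n1) (le_max_left _ _)
    have h2 := hn1 (max n0 n1) (le_max_right _ _)
    rw [(happ _ _ h1).1, (happ _ _ h2).1]
    exact (hsh (max n0 n1)).lt c h2 b h1 hbc

end SE
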