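import Pool.Agent.H9.SE.TarK

set_option linter.unusedVariables false

open Ordinal Order Set
open scoped ZFSet

namespace SE

open SF CAA

theorem kh1_prt_sing {F : V → V} {k y : V} (hk : k ∈ hf) :
    Prt ({ZFSet.pair k y} : V) F ↔ F k = y := by
  constructor
  · intro h
    obtain ⟨h', hh', e⟩ := h _ (ZFSet.mem_singleton.2 rfl)
    obtain ⟨e1, e2⟩ := ZFSet.pair_inj.1 e
    rw [e1, ← e2]
  · intro h z hz
    rw [ZFSet.mem_singleton] at hz
    exact ⟨k, hk, by rw [hz, h]⟩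

theorem kh1_prt_union {F : V → V} {s s' : V} :
    Prt (s ∪ s') F ↔ Prt s F ∧ Prt s' F := by
  constructor
  · intro h
    exact ⟨fun z hz => h z (ZFSet.mem_union.2 (Or.inl hz)),
      fun z hz => h z (ZFSet.mem_union.2 (Or.inr hz))⟩
  · rintro ⟨h1, h2⟩ z hz
    rcases ZFSet.mem_union.1 hz with hz | hz
    · exact h1 z hz
    · exact h2 z hz

theorem kh1_sing_mem (hAA : T_AA) {z : V} (hz : z ∈ hf) : ({z} : V) ∈ hf := by
  obtain ⟨-, -, -, -, h5, -⟩ := hAA
  refine h5 _ ?_ ?_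
  · intro y hy
    rw [ZFSet.mem_singleton] at hy
    rw [hy]; exact hz
  · have : (({z} : V) : Set V) = {z} := by
      ext y
      simp
    rw [this]
    exact Set.finite_singleton z

theorem kh1_union_mem (hAA : T_AA) {s t : V} (hs : s ∈ hf) (ht : t ∈ hf) : s ∪ t ∈ hf := by
  obtain ⟨h1, -, -, -, h5, h6, -⟩ := hAA
  refine h5 _ ?_ ?_
  · intro y hy
    rcases ZFSet.mem_union.1 hy with hy | hy
    · exact h1 s hs hy
    · exact h1 t ht hy
  · have : ((s ∪ t : V) : Set V) = (s : Set V) ∪ (t : Set V) := by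
      ext y
      simp
    rw [this]
    exact (h6 s hs).union (h6 t ht)

theorem kh1_empty_mem (hAA : T_AA) : (∅ : V) ∈ hf := by
  obtain ⟨-, h2, -⟩ := hAA
  have := h2 0
  rwa [nS_zero] at this

theorem kh1_and (P Q : (V → V) → (ℕ → V) → Prop) (hP : Cls P) (hQ : Cls Q) :
    Cls fun F v => P F v ∧ Q F v := by
  obtain ⟨K1, hK1, h1⟩ := hP
  obtain ⟨K2, hK2, h2⟩ := hQ
  refine ⟨fun v => K1 v ∪ K2 v, Tm.union hK1 hK2, ?_⟩
  intro v hv
  obtain ⟨a1, b1⟩ := h1 v hv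
  obtain ⟨a2, b2⟩ := h2 v hv
  refine ⟨?_, ?_⟩
  · intro y hy
    rcases ZFSet.mem_union.1 hy with hy | hy
    · exact a1 hy
    · exact a2 hy
  · intro F hF
    show (P F v ∧ Q F v) ↔ _
    rw [b1 F hF, b2 F hF]
    constructor
    · rintro ⟨c1, c2⟩ s hs
      rcases ZFSet.mem_union.1 hs with hs | hs
      · exact c1 s hs
      · exact c2 s hs
    · intro c
      exact ⟨fun s hs => c s (ZFSet.mem_union.2 (Or.inl hs)),
        fun s hs => c s (ZFSet.mem_union.2 (Or.inr hs))⟩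

theorem kh1_or (hAA : T_AA) (P Q : (V → V) → (ℕ → V) → Prop) (hP : Cls P) (hQ : Cls Q) :
    Cls fun F v => P F v ∨ Q F v := by
  obtain ⟨K1, hK1, h1⟩ := hP
  obtain ⟨K2, hK2, h2⟩ := hQ
  refine ⟨fun v => (⋃₀ (imS (K1 v) fun s => imS (K2 v) fun s' => s ∪ s') : ZFSet), ?_, ?_⟩
  · refine Tm.iUn (f := fun _ v => K1 v)
      (g := fun _ v => imS (K2 fun i => v (i + 1)) fun s' => v 0 ∪ s') hK1 ?_
    exact Tm.image (f := fun _ v => K2 fun i => v (i + 1)) (g := fun _ v => v 1 ∪ v 0)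
      (hK2.rn fun i => i + 1) (Tm.union (Tm.var 1) (Tm.var 0))
  · intro v hv
    obtain ⟨a1, b1⟩ := h1 v hv
    obtain ⟨a2, b2⟩ := h2 v hv
    have hm : ∀ z, z ∈ (⋃₀ (imS (K1 v) fun s => imS (K2 v) fun s' => s ∪ s') : ZFSet) ↔
        ∃ s ∈ K1 v, ∃ s' ∈ K2 v, s ∪ s' = z := by
      intro z
      rw [ZFSet.mem_sUnion]
      constructor
      · rintro ⟨w, hw, hz⟩
        rw [mem_imS] at hw
        obtain ⟨s, hs, rfl⟩ := hw
        rw [mem_imS] at hz
        exact ⟨s, hs, hz⟩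
      · rintro ⟨s, hs, hz⟩
        exact ⟨_, mem_imS.2 ⟨s, hs, rfl⟩, mem_imS.2 hz⟩
    refine ⟨?_, ?_⟩
    · intro z hz
      obtain ⟨s, hs, s', hs', rfl⟩ := (hm z).1 hz
      exact kh1_union_mem hAA (a1 hs) (a2 hs')
    · intro F hF
      show (P F v ∨ Q F v) ↔ _
      rw [b1 F hF, b2 F hF]
      constructor
      · rintro (c | c) z hz
        · obtain ⟨s, hs, s', hs', rfl⟩ := (hm z).1 hz
          intro hp
          exact c s hs (kh1_prt_union.1 hp).1
        · obtain ⟨s, hs, s', hs', rfl⟩ := (hm z).1 hz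
          intro hp
          exact c s' hs' (kh1_prt_union.1 hp).2
      · intro c
        by_contra hcon
        push Not at hcon
        obtain ⟨⟨s, hs, hp⟩, ⟨s', hs', hp'⟩⟩ := hcon
        exact c _ ((hm _).2 ⟨s, hs, s', hs', rfl⟩) (kh1_prt_union.2 ⟨hp, hp'⟩)

theorem kh1_all (hAA : T_AA) (P : (V → V) → (ℕ → V) → Prop) (hP : Cls P) :
    Cls fun F v => ∀ h ∈ hf, P F (cons h v) := by
  have hAA' := hAA
  obtain ⟨-, -, -, -, -, -, -, hTm, -⟩ := hAA'
  obtain ⟨K, hK, h1⟩ := hP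
  refine ⟨fun v => (⋃₀ (imS hf fun h => K (cons h v)) : ZFSet), ?_, ?_⟩
  · exact Tm.iUn (f := fun _ _ => hf) (g := fun _ v => K v) hTm hK
  · intro v hv
    have hm : ∀ z, z ∈ (⋃₀ (imS hf fun h => K (cons h v)) : ZFSet) ↔
        ∃ h ∈ hf, z ∈ K (cons h v) := by
      intro z
      rw [ZFSet.mem_sUnion]
      constructor
      · rintro ⟨w, hw, hz⟩
        rw [mem_imS] at hw
        obtain ⟨s, hs, rfl⟩ := hw
        exact ⟨s, hs, hz⟩
      · rintro ⟨s, hs, hz⟩
        exact ⟨_, mem_imS.2 ⟨s, hs, rfl⟩, hz⟩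
    have hc : ∀ h ∈ hf, In (· ∈ hf) (cons h v) := fun h hh => In.cons hv hh
    refine ⟨?_, ?_⟩
    · intro z hz
      obtain ⟨h, hh, hz⟩ := (hm z).1 hz
      exact (h1 _ (hc h hh)).1 hz
    · intro F hF
      constructor
      · intro c z hz
        obtain ⟨h, hh, hz⟩ := (hm z).1 hz
        exact ((h1 _ (hc h hh)).2 F hF).1 (c h hh) z hz
      · intro c h hh
        exact ((h1 _ (hc h hh)).2 F hF).2 fun s hs => c s ((hm s).2 ⟨h, hh, hs⟩)

theorem kh1_imp (R : (ℕ → V) → Prop) (P : (V → V) → (ℕ → V) → Prop)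
    (hR : Dfb ZFm (fun _ v => R v)) (hP : Cls P) : Cls fun F v => R v → P F v := by
  obtain ⟨K, hK, h1⟩ := hP
  refine ⟨fun v => sel (R v) (K v) ∅, Tm.sel hR hK Tm.empty, ?_⟩
  intro v hv
  obtain ⟨a1, b1⟩ := h1 v hv
  by_cases hRv : R v
  · simp only [sel_pos hRv]
    refine ⟨a1, fun F hF => ?_⟩
    rw [← b1 F hF]
    exact ⟨fun h => h hRv, fun h _ => h⟩
  · simp only [sel_neg hRv]
    refine ⟨ZFSet.empty_subset _, fun F hF => ?_⟩
    constructor
    · intro _ s hs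
      exact absurd hs (ZFSet.notMem_empty _)
    · intro _ h
      exact absurd h hRv

theorem kh1_rel (hAA : T_AA) (R : (ℕ → V) → Prop) (hR : Dfb ZFm (fun _ v => R v)) :
    Cls fun F v => R v := by
  refine ⟨fun v => sel (R v) ∅ ({(∅ : V)} : V), Tm.sel hR Tm.empty (Tm.sing Tm.empty), ?_⟩
  intro v hv
  by_cases hRv : R v
  · simp only [sel_pos hRv]
    refine ⟨ZFSet.empty_subset _, fun F hF => ?_⟩
    constructor
    · intro _ s hs
      exact absurd hs (ZFSet.notMem_empty _)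
    · intro _
      exact hRv
  · simp only [sel_neg hRv]
    refine ⟨?_, fun F hF => ?_⟩
    · intro z hz
      rw [ZFSet.mem_singleton] at hz
      rw [hz]
      exact kh1_empty_mem hAA
    · constructor
      · intro h
        exact absurd h hRv
      · intro h
        exact absurd (fun z hz => absurd hz (ZFSet.notMem_empty _) : Prt ∅ F)
          (h ∅ (ZFSet.mem_singleton.2 rfl))

theorem kh1_eq (hAA : T_AA) (k b : (ℕ → V) → V) (hk : TmH k) (hb : TmH b) :
    Cls fun F v => F (k v) = b v := by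
  have hAA' := hAA
  obtain ⟨-, -, -, hp, -, -, -, hTm, -⟩ := hAA'
  refine ⟨fun v => imS (hf \ {b v}) fun y => ({ZFSet.pair (k v) y} : V), ?_, ?_⟩
  · exact Tm.image (f := fun _ v => hf \ {b v})
      (g := fun _ v => ({ZFSet.pair (k fun i => v (i + 1)) (v 0)} : V))
      (Tm.diff hTm (Tm.sing hb.1)) (Tm.sing (Tm.pair (hk.1.rn fun i => i + 1) (Tm.var 0)))
  · intro v hv
    have hkv := hk.2 v hv
    have hbv := hb.2 v hv
    refine ⟨?_, ?_⟩
    · intro z hz
      rw [mem_imS] at hz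
      obtain ⟨y, hy, rfl⟩ := hz
      rw [ZFSet.mem_sdiff] at hy
      exact kh1_sing_mem hAA (hp _ hkv _ hy.1)
    · intro F hF
      constructor
      · intro h s hs hp
        rw [mem_imS] at hs
        obtain ⟨y, hy, rfl⟩ := hs
        rw [kh1_prt_sing hkv] at hp
        rw [ZFSet.mem_sdiff, ZFSet.mem_singleton] at hy
        exact hy.2 (by rw [← hp, h])
      · intro h
        by_contra hne
        refine h _ (mem_imS.2 ⟨F (k v), ?_, rfl⟩) ((kh1_prt_sing hkv).2 rfl)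
        rw [ZFSet.mem_sdiff, ZFSet.mem_singleton]
        exact ⟨hF _ hkv, hne⟩

theorem kh1_ne (hAA : T_AA) (k b : (ℕ → V) → V) (hk : TmH k) (hb : TmH b) :
    Cls fun F v => F (k v) ≠ b v := by
  have hAA' := hAA
  obtain ⟨-, -, -, hp, -, -, -, hTm, -⟩ := hAA'
  refine ⟨fun v => ({({ZFSet.pair (k v) (b v)} : V)} : V), ?_, ?_⟩
  · exact Tm.sing (Tm.sing (Tm.pair hk.1 hb.1))
  · intro v hv
    have hkv := hk.2 v hv
    have hbv := hb.2 v hv
    refine ⟨?_, ?_⟩
    · intro z hz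
      rw [ZFSet.mem_singleton] at hz
      rw [hz]
      exact kh1_sing_mem hAA (hp _ hkv _ hbv)
    · intro F hF
      constructor
      · intro h s hs hp
        rw [ZFSet.mem_singleton] at hs
        rw [hs, kh1_prt_sing hkv] at hp
        exact h hp
      · intro h hcon
        exact h _ (ZFSet.mem_singleton.2 rfl) ((kh1_prt_sing hkv).2 hcon)

theorem t_kh1 (hAA : T_AA) : T_KH1 :=
  ⟨kh1_and, kh1_or hAA, kh1_all hAA, kh1_imp, kh1_rel hAA, kh1_eq hAA, kh1_ne hAA⟩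

end SE
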